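import Mathlib
import Pool.Agent.N908.FR.Fld

/-!
# Efrat's conjecture for fields with many Steinberg symbols, `p` odd

`F` is a field with a primitive `p`-th root of unity, `p` odd, and `F*/F*^p` has `p ^ n` elements.
The Steinberg symbols `F* × F* → ℤ/p` form the dual of `K_2(F)/p`, which is isomorphic to
`H²(G_F(p), ℤ/p)` (Merkurjev and Suslin); their number is `p ^ s` with `s ≤ n (n - 1) / 2`.

If `s > (n - 1) (n - 2) / 2` then `F` has a valuation ring `O` with `p ∈ O*`, `1 + m ⊆ F*^p` and
`O* F*^p ≠ F*`, the group `O* F*^p / F*^p` has at most `p ^ (n (n - 1) / 2 - s + 1)` elements, and the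
maximal pro-`p` Galois group of `F` is the decomposition group of a valuation with nontrivial
inertia, so that the conclusion of the conjecture holds.

Proof. Let `R` be the span of the elements `x ∧ (1 + x)` of the exterior square of the vector space
`F*/F*^p`; its dimension is at most `r = n (n - 1) / 2 - s ≤ n - 2`. Call a subspace `K` connected if
modulo the exterior square of every subspace `I ≠ 0` of `K` the relations inside `K` have rank at
least `dim K - dim I`. Lines are connected, the sum of two connected subspaces is connected if they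
meet outside `0` or if they are joined by a relation, and a connected subspace has dimension at most
`r + 1`. So the maximal connected subspaces form a partition of `F*/F*^p` into proper subgroups which
respects sums, and the starting file `SymbolPartitions` gives the valuation ring inside one of them.
-/

set_option autoImplicit false

namespace Pool.Agent.Results.MP_600e55_nt.ManySymbols

open Pool.Agent.Results.MP_600e55_nt.SymbolPartitions

/-- the Steinberg symbols on `F` with values in `ℤ/p`: the bimultiplicative functions `c` with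
`c(x,y) = 0` for all `x + y = 1` -/
def Symbols (F : Type) [Field F] (p : ℕ) : Type :=
  {c : Fˣ → Fˣ → ZMod p // (∀ a b x : Fˣ, c (a * b) x = c a x + c b x) ∧
    (∀ x a b : Fˣ, c x (a * b) = c x a + c x b) ∧ ∀ x y : Fˣ, (x : F) + y = 1 → c x y = 0}

/-- the theorem for a given model `V` of the vector space `F*/F*^p` -/
theorem core (p : ℕ) [Fact p.Prime] (hp2 : p ≠ 2) (F : Type) [Field F]
    (hζ : ∃ ζ : F, IsPrimitiveRoot ζ p) (n : ℕ) (hn : (powers F p).index = p ^ n)
    (hs : p ^ ((n - 1) * (n - 2) / 2) < Nat.card (Symbols F p))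
    (V : Type) [AddCommGroup V] [Module (ZMod p) V] [Finite V] (hV : Nat.card V = p ^ n)
    (q : Fˣ → V) (hq : ∀ a b, q (a * b) = q a + q b) (hsur : Function.Surjective q)
    (hk : ∀ a, q a = 0 ↔ a ∈ powers F p) :
    (∃ O : ValuationSubring F, IsCompatible p O ∧
      (powers F p).relIndex (O.unitGroup ⊔ powers F p) * Nat.card (Symbols F p) ≤
        p ^ (n * (n - 1) / 2 + 1)) ∧
    ∀ K : IntermediateField F (AlgebraicClosure F), IsMaximalPExtension p K →
      IsDecompositionGroup (⊤ : Subgroup (↥K ≃ₐ[F] ↥K)) ∧ ConclusionOfQ1 p K := by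
  have hp : p.Prime := Fact.out
  have hfin : (powers F p).index ≠ 0 := by
    rw [hn]
    exact (pow_pos hp.pos n).ne'
  have hdim : Module.finrank (ZMod p) V = n := by
    have h2 := Module.natCard_eq_pow_finrank (K := ZMod p) (V := V)
    rw [Nat.card_zmod, hV] at h2
    exact (Nat.pow_right_injective hp.two_le h2).symm
  have hcard : Nat.card (Symbols F p) =
      Nat.card {c : Fˣ → Fˣ → ZMod p // Pool.Agent.N908.FR.IsSymbol p F c} := by
    refine Nat.card_congr (Equiv.subtypeEquivRight fun c => ?_)
    exact ⟨fun h => ⟨h.1, h.2.1, h.2.2⟩, fun h => ⟨h.1, h.2, h.3⟩⟩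
  have h1 := Pool.Agent.N908.FR.card_symbols hp2 hq hsur hk
  rw [← hcard] at h1
  set f := Module.finrank (ZMod p) (Pool.Agent.N908.FR.Forms (ZMod p) (Pool.Agent.N908.FR.Est q))
  set r := Module.finrank (ZMod p)
    (Pool.Agent.N908.FR.Rel (k := ZMod p) (Pool.Agent.N908.FR.Est q) ⊤)
  have h2 : 2 * (f + r) + n ≤ n * n := Pool.Agent.N908.FR.forms_le hdim _
  have h3 : (n - 1) * (n - 2) / 2 < f :=
    (Nat.pow_lt_pow_iff_right hp.one_lt).1 (hs.trans_le h1)
  have hr : r + 2 ≤ n := by
    rcases n with - | m
    · omega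
    · have e1 : (m + 1 - 1) * (m + 1 - 2) / 2 * 2 = m * (m - 1) := by
        have : Even ((m + 1 - 1) * (m + 1 - 2)) := by
          have := Nat.even_mul_pred_self m
          simpa using this
        rw [Nat.div_mul_cancel this.two_dvd]
        simp
      have e2 : m * (m - 1) + m = m * m := by
        rcases m with - | j
        · rfl
        · simp; ring
      nlinarith
  have hr' : r + 2 ≤ Module.finrank (ZMod p) V := by rwa [hdim]
  obtain ⟨⟨O, hO, hO'⟩, h4⟩ := Pool.Agent.N908.FR.main hp2 hζ hfin hq hsur hk hr'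
  refine ⟨⟨O, hO, (Nat.mul_le_mul hO' h1).trans ?_⟩, h4⟩
  rw [← pow_add]
  refine Nat.pow_le_pow_right hp.pos ?_
  have e3 : n * (n - 1) + n = n * n := by
    rcases n with - | j
    · rfl
    · simp; ring
  have e4 : f + r ≤ n * (n - 1) / 2 := by
    rw [Nat.le_div_iff_mul_le two_pos]
    omega
  change 1 + r + f ≤ _
  omega

theorem result (p : ℕ) [Fact p.Prime] (hp2 : p ≠ 2) (F : Type) [Field F]
    (hζ : ∃ ζ : F, IsPrimitiveRoot ζ p) (n : ℕ) (hn : (powers F p).index = p ^ n)
    (hs : p ^ ((n - 1) * (n - 2) / 2) < Nat.card (Symbols F p)) :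
    (∃ O : ValuationSubring F, IsCompatible p O ∧
      (powers F p).relIndex (O.unitGroup ⊔ powers F p) * Nat.card (Symbols F p) ≤
        p ^ (n * (n - 1) / 2 + 1)) ∧
    ∀ K : IntermediateField F (AlgebraicClosure F), IsMaximalPExtension p K →
      IsDecompositionGroup (⊤ : Subgroup (↥K ≃ₐ[F] ↥K)) ∧ ConclusionOfQ1 p K := by
  have hp : p.Prime := Fact.out
  have hfin : (powers F p).index ≠ 0 := by
    rw [hn]
    exact (pow_pos hp.pos n).ne'
  let iG : AddCommGroup (Additive (Fˣ ⧸ powers F p)) := inferInstance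
  have hz : ∀ x : Additive (Fˣ ⧸ powers F p), p • x = 0 := fun x => by
    obtain ⟨a, ha⟩ := QuotientGroup.mk_surjective (Additive.toMul x)
    have h1 : p • x = Additive.ofMul ((QuotientGroup.mk a : Fˣ ⧸ powers F p) ^ p) := by
      rw [ha]
      rfl
    rw [h1, ofMul_eq_zero, ← QuotientGroup.mk_pow, QuotientGroup.eq_one_iff]
    exact ⟨a, rfl⟩
  letI : Module (ZMod p) (Additive (Fˣ ⧸ powers F p)) := AddCommGroup.zmodModule hz
  have hFin : Finite (Additive (Fˣ ⧸ powers F p)) := by
    have : (powers F p).FiniteIndex := ⟨hfin⟩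
    exact inferInstanceAs (Finite (Fˣ ⧸ powers F p))
  refine core p hp2 F hζ n hn hs (Additive (Fˣ ⧸ powers F p)) ?_
    (fun a => Additive.ofMul (QuotientGroup.mk a)) (fun a b => rfl) ?_ ?_
  · rw [← hn]
    rfl
  · intro x
    obtain ⟨a, ha⟩ := QuotientGroup.mk_surjective (Additive.toMul x)
    exact ⟨a, congrArg Additive.ofMul ha⟩
  · intro a
    change Additive.ofMul (QuotientGroup.mk a : Fˣ ⧸ powers F p) = 0 ↔ _
    rw [ofMul_eq_zero, QuotientGroup.eq_one_iff]

end Pool.Agent.Results.MP_600e55_nt.ManySymbols
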