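import Pool.Agent.N88.FR.Field
import Pool.Agent.Y920.ETC.GalH
import Pool.Agent.Y620.ET.Extv
import Pool.Agent.Y37.ET.Max2

/-! # MP_600e55_nt: Efrat's conjecture for fields with many Steinberg symbols, `p = 2`

Let `F` be a field of characteristic `≠ 2` with `[F* : F*²] = 2 ^ n`, and let `s` be the number of
the Steinberg symbols `F* × F* → Z/2`.  They form the dual of `K_2(F)/2`, which is isomorphic to
`H²(G_F(2), Z/2)` (Merkurjev).  It is known that `s ≤ 2 ^ (n (n-1)/2 + 1)`, and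
`s ≤ 2 ^ (n (n-1)/2)` if `-1` is a square.

Theorem.  If `2 ^ n s > 2 ^ (n (n-1)/2 + 4)`, or if `-1` is a square and
`2 ^ n s > 2 ^ (n (n-1)/2 + 2)`, then `F` has a valuation ring `O` with `2 ∈ O*`, `1 + m ⊆ F*²` and
`O* F*² ≠ F*`, and the maximal pro-2 Galois group of `F` is the decomposition group of a valuation
with nontrivial inertia, so that the conclusion of the conjecture holds.

Outline. Let `A` be the space of the biadditive maps `χ : F*/F*² × F*/F*² → Z/2` with `χ(a,-a) = 0`,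
and `R` the space of linear forms on `A` which vanish at the symbols; `|A| = s |R|`.  If `a` is not
rigid there is `b` such that `χ ↦ χ(a,b)` is in `R` and not zero.  At most three classes `a` give the
same element of `R`, by a separation argument in `A`; so there are at most `3 (|R| - 1)` classes
which are not rigid, and the basic part of `F` is bounded in terms of `|R|`.  If it has index at
least three in `F*/F*²`, rigid elements give the valuation. -/

set_option autoImplicit false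

namespace Pool.Agent.Results.MP_600e55_nt.ManySymbolsTwo

open Pool.Agent.H315R3.ETC Pool.Agent.TH188.ET Pool.Agent.Y920.ETC

/-- the group of squares of `F*` -/
def squares (F : Type) [Field F] : Subgroup Fˣ := (powMonoidHom 2 : Fˣ →* Fˣ).range

/-- the Steinberg symbols on `F` with values in `ℤ/2`: the bimultiplicative functions `c` with
`c(x,y) = 0` for all `x + y = 1` -/
def Symbols (F : Type) [Field F] : Type :=
  {c : Fˣ → Fˣ → ZMod 2 // (∀ a b x : Fˣ, c (a * b) x = c a x + c b x) ∧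
    (∀ x a b : Fˣ, c x (a * b) = c x a + c x b) ∧ ∀ x y : Fˣ, (x : F) + y = 1 → c x y = 0}

/-- `K` is the compositum of the finite Galois extensions of `F` of 2-power degree -/
def IsMaximalTwoExtension {F : Type} [Field F] (K : IntermediateField F (AlgebraicClosure F)) :
    Prop :=
  K = sSup {L : IntermediateField F (AlgebraicClosure F) |
    FiniteDimensional F L ∧ IsGalois F L ∧ ∃ k : ℕ, Module.finrank F L = 2 ^ k}

theorem result (F : Type) [Field F] (h2 : (2 : F) ≠ 0) (n : ℕ) (hn : (squares F).index = 2 ^ n)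
    (e : ℕ) (he : n.choose 2 + 4 ≤ e ∨ IsSquare (-1 : F) ∧ n.choose 2 + 2 ≤ e)
    (hs : 2 ^ e < 2 ^ n * Nat.card (Symbols F)) :
    -- a valuation ring of `F`
    (∃ O : ValuationSubring F,
      (∀ x : F, x ∈ O → x⁻¹ ∉ O → IsSquare (1 + x)) ∧
      (∃ c : Fˣ, ∀ f : Fˣ, ¬ (((c * f ^ 2 : Fˣ) : F) ∈ O ∧ (((c * f ^ 2)⁻¹ : Fˣ) : F) ∈ O)) ∧
      (2 : IsLocalRing.ResidueField O) ≠ 0 ∧
      (squares (IsLocalRing.ResidueField O)).index * Nat.card (Symbols F) ≤ 2 ^ e) ∧
    ∀ K : IntermediateField F (AlgebraicClosure F), IsMaximalTwoExtension K →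
      -- `Gal(K/F)` is the decomposition group of a valuation with nontrivial inertia
      (∃ (Γ : Type) (_ : LinearOrderedCommGroupWithZero Γ) (w : Valuation K Γ),
        (∀ (σ : K ≃ₐ[F] K) (x : K), w (σ x) ≤ 1 ↔ w x ≤ 1) ∧
        ∃ σ : K ≃ₐ[F] K, σ ≠ 1 ∧ ∀ x : K, w x ≤ 1 → w (σ x - x) < 1) ∧
      -- the conclusion of Q1 for `p = 2`
      ∃ (n : ℕ) (H : Fin n → Subgroup (↥K ≃ₐ[F] ↥K)),
        (∀ i, IsClosed (H i : Set (↥K ≃ₐ[F] ↥K))) ∧
        (∀ (P : Type) [Group P] [Finite P], (∃ k : ℕ, Nat.card P = 2 ^ k) →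
          ∀ φ : (i : Fin n) → (H i →* P), (∀ i, IsOpen ((φ i).ker : Set (H i))) →
            ∃! ψ : (↥K ≃ₐ[F] ↥K) →* P,
              IsOpen (ψ.ker : Set (↥K ≃ₐ[F] ↥K)) ∧
              ∀ i, ∀ x : H i, ψ (x : ↥K ≃ₐ[F] ↥K) = φ i x) ∧
        (∀ i,
          Nonempty (H i ≃ₜ* Multiplicative (PadicInt 2)) ∨
          (∃ (Γ : Type) (_ : LinearOrderedCommGroupWithZero Γ) (w : Valuation (↥K) Γ),
            (∀ σ : ↥K ≃ₐ[F] ↥K, σ ∈ H i ↔ ∀ x : ↥K, (w (σ x) ≤ 1 ↔ w x ≤ 1)) ∧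
            ∃ σ ∈ H i, σ ≠ 1 ∧ ∀ x : ↥K, w x ≤ 1 → w (σ x - x) < 1) ∨
          ((2 : ℕ) = 2 ∧ Nat.card (H i) = 2)) := by
  have hcard : Nat.card (Symbols F) =
      Nat.card {c : Fˣ → Fˣ → ZMod 2 // Pool.Agent.N88.FR.IsSt F c} := by
    refine Nat.card_congr (Equiv.subtypeEquivRight fun c => ?_)
    exact ⟨fun h => ⟨h.1, h.2.1, h.2.2⟩, fun h => ⟨h.1, h.2, h.3⟩⟩
  rw [hcard] at hs ⊢
  obtain ⟨d, rfl⟩ : ∃ d, e = d + 1 := ⟨e - 1, by rcases he with he | he <;> omega⟩
  have hd : 2 ^ (d + 1) = 2 * 2 ^ d := by rw [pow_succ]; ring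
  rw [hd] at hs ⊢
  obtain ⟨O, h3, h4, h5, h6, -⟩ := Pool.Agent.N88.FR.field_val h2 hn (e := d)
    (by
      rcases he with he | he
      · exact Or.inl (by omega)
      · exact Or.inr ⟨he.1, by omega⟩) hs
  refine ⟨⟨O, h3.2.2, h4, h5, h6⟩, fun K hK => ?_⟩
  have hD : DecInert F K := decInert Pool.Agent.Y620.ET.t_EXTV Pool.Agent.Y37.ET.t_MAX2 F h2 O h3
    h4 K hK
  exact ⟨hD, efratTwo F K hD⟩

end Pool.Agent.Results.MP_600e55_nt.ManySymbolsTwo
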