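import Pool.Agent.N908.FR2.FieldX
import Pool.Agent.N88.FR.Field
import Pool.Agent.Y920.ETC.GalH
import Pool.Agent.Y620.ET.Extv
import Pool.Agent.Y37.ET.Max2

/-! # MP_600e55_nt, p = 2: large norm indices and few relations between quaternion algebras

`F` is a field of characteristic `≠ 2` in which `-1` is a square, `[F* : F*²] = 2 ^ n`, and `s` is
the number of Steinberg symbols `F* × F* → Z/2`.  If, for some `c ≥ 1`, the group `N(a)` of the
nonzero values of `x² - a y²` has index at least `2 ^ (c+1)` in `F*` for all nonsquares `a`, and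
`s > 2 ^ (n (n-1)/2 - (c+1)(n-1) + 3c² + 5c + 3)` or `s > 2 ^ (n (n-1)/2 - 2(n-1) + 5)`, then the
maximal pro-2 Galois group of `F` is the decomposition group of a valuation with nontrivial inertia
group. -/

set_option autoImplicit false

namespace Pool.Agent.Results.MP_600e55_nt.NormIndexSymbols

open Pool.Agent.H315R3.ETC Pool.Agent.TH188.ET Pool.Agent.Y920.ETC

/-- the group of squares of `F*` -/
def squares (F : Type) [Field F] : Subgroup Fˣ := (powMonoidHom 2 : Fˣ →* Fˣ).range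

/-- the Steinberg symbols on `F` with values in `ℤ/2`: the bimultiplicative functions `c` with
`c(x,y) = 0` for all `x + y = 1` -/
def Symbols (F : Type) [Field F] : Type :=
  {c : Fˣ → Fˣ → ZMod 2 // (∀ a b x : Fˣ, c (a * b) x = c a x + c b x) ∧
    (∀ x a b : Fˣ, c x (a * b) = c x a + c x b) ∧ ∀ x y : Fˣ, (x : F) + y = 1 → c x y = 0}

/-- the group of the nonzero values of `x² - a y²` -/
def norms {F : Type} [Field F] (a : Fˣ) : Subgroup Fˣ where
  carrier := {c | ∃ x y : F, (c : F) = x ^ 2 - a * y ^ 2}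
  one_mem' := NormFrom.one a
  mul_mem' := NormFrom.mul
  inv_mem' := NormFrom.inv

/-- `K` is the compositum of the finite Galois extensions of `F` of 2-power degree -/
def IsMaximalTwoExtension {F : Type} [Field F] (K : IntermediateField F (AlgebraicClosure F)) :
    Prop :=
  K = sSup {L : IntermediateField F (AlgebraicClosure F) |
    FiniteDimensional F L ∧ IsGalois F L ∧ ∃ k : ℕ, Module.finrank F L = 2 ^ k}

theorem result (F : Type) [Field F] (h2 : (2 : F) ≠ 0) (h1 : IsSquare (-1 : F)) (n : ℕ)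
    (hn : (squares F).index = 2 ^ n) (c : ℕ) (hc1 : 1 ≤ c)
    (hc : ∀ a : Fˣ, ¬ IsSquare (a : F) → 2 ^ (c + 1) ≤ (norms a).index)
    (hs : 2 ^ (n.choose 2 + (3 * c ^ 2 + 5 * c + 3)) <
          2 ^ ((c + 1) * (n - 1)) * Nat.card (Symbols F) ∨
        2 ^ (n.choose 2 + 5) < 2 ^ (2 * (n - 1)) * Nat.card (Symbols F)) :
    -- a valuation ring of `F`
    (∃ O : ValuationSubring F,
      (∀ x : F, x ∈ O → x⁻¹ ∉ O → IsSquare (1 + x)) ∧
      (∃ c : Fˣ, ∀ f : Fˣ, ¬ (((c * f ^ 2 : Fˣ) : F) ∈ O ∧ (((c * f ^ 2)⁻¹ : Fˣ) : F) ∈ O)) ∧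
      (2 : IsLocalRing.ResidueField O) ≠ 0 ∧
      (squares (IsLocalRing.ResidueField O)).index < (squares F).index) ∧
    ∀ K : IntermediateField F (AlgebraicClosure F), IsMaximalTwoExtension K →
      -- `Gal(K/F)` is the decomposition group of a valuation with nontrivial inertia
      (∃ (Γ : Type) (_ : LinearOrderedCommGroupWithZero Γ) (w : Valuation K Γ),
        (∀ (σ : K ≃ₐ[F] K) (x : K), w (σ x) ≤ 1 ↔ w x ≤ 1) ∧
        ∃ σ : K ≃ₐ[F] K, σ ≠ 1 ∧ ∀ x : K, w x ≤ 1 → w (σ x - x) < 1) ∧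
      -- the conclusion of Q1 for `p = 2`
      ∃ (n : ℕ) (H : Fin n → Subgroup (↥K ≃ₐ[F] ↥K)),
        (∀ i, IsClosed (H i : Set (↥K ≃ₐ[F] ↥K))) ∧
        (∀ (P : Type) [Group P] [Finite P], (∃ k : ℕ, Nat.card P = 2 ^ k) →
          ∀ φ : (i : Fin n) → (H i →* P), (∀ i, IsOpen ((φ i).ker : Set (H i))) →
            ∃! ψ : (↥K ≃ₐ[F] ↥K) →* P,
              IsOpen (ψ.ker : Set (↥K ≃ₐ[F] ↥K)) ∧
              ∀ i, ∀ x : H i, ψ (x : ↥K ≃ₐ[F] ↥K) = φ i x) ∧
        (∀ i,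
          Nonempty (H i ≃ₜ* Multiplicative (PadicInt 2)) ∨
          (∃ (Γ : Type) (_ : LinearOrderedCommGroupWithZero Γ) (w : Valuation (↥K) Γ),
            (∀ σ : ↥K ≃ₐ[F] ↥K, σ ∈ H i ↔ ∀ x : ↥K, (w (σ x) ≤ 1 ↔ w x ≤ 1)) ∧
            ∃ σ ∈ H i, σ ≠ 1 ∧ ∀ x : ↥K, w x ≤ 1 → w (σ x - x) < 1) ∨
          ((2 : ℕ) = 2 ∧ Nat.card (H i) = 2)) := by
  have hcard : Nat.card (Symbols F) =
      Nat.card {c : Fˣ → Fˣ → ZMod 2 // Pool.Agent.N88.FR.IsSt F c} := by
    refine Nat.card_congr (Equiv.subtypeEquivRight fun c => ?_)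
    exact ⟨fun h => ⟨h.1, h.2.1, h.2.2⟩, fun h => ⟨h.1, h.2, h.3⟩⟩
  obtain ⟨S, hS, hSf, hSq, hneg, hSn, hnum, -, hV⟩ :=
    Pool.Agent.N908.FR2.field_str h2 hn h1
  rw [hcard, hnum] at hs
  have hidx : ∀ g : S.G, g ≠ 1 → 2 ^ (c + 1) * {b : S.G | S.q g b = S.zero}.ncard ≤ 2 ^ n := by
    intro g hg
    obtain ⟨a, ha, he⟩ := hV g hg
    have h3 : (nG a).index = (norms a).index := rfl
    rw [← he, h3, mul_comm]
    exact Nat.mul_le_mul_left _ (hc a ha)
  have e4 : 2 ^ (2 * (n - 1)) = 4 ^ (n - 1) := by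
    rw [pow_mul]
    norm_num
  rw [e4] at hs
  obtain ⟨Bs, hB⟩ := Pool.Agent.Y67.ET.t_BASIC S hSq
  have hlt := Pool.Agent.N908.FR2.basic_small hSq hneg hSn hc1 hidx hs Bs hB
  obtain ⟨O, h3, h4, h5, -, k, T, h7, h8, -⟩ :=
    Pool.Agent.N88.FR.reduceB h2 hS hSf hSq Bs hB hlt
  refine ⟨⟨O, h3.2.2, h4, h5, ?_⟩, fun K hK => ?_⟩
  · have h9 : 2 ^ 1 ≤ 2 ^ k := Nat.pow_le_pow_right (by norm_num) h7
    have h10 : 0 < (sqG (IsLocalRing.ResidueField O)).index := by
      rcases Nat.eq_zero_or_pos (sqG (IsLocalRing.ResidueField O)).index with h0 | h0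
      · rw [h0, mul_zero] at h8
        have : (sqG F).index = 2 ^ n := hn
        rw [this] at h8
        have : 0 < 2 ^ n := by positivity
        omega
      · exact h0
    have h11 : (squares (IsLocalRing.ResidueField O)).index =
      (sqG (IsLocalRing.ResidueField O)).index := rfl
    have h12 : (squares F).index = (sqG F).index := rfl
    rw [h11, h12, ← h8]
    nlinarith
  · have hD : DecInert F K := decInert Pool.Agent.Y620.ET.t_EXTV Pool.Agent.Y37.ET.t_MAX2 F h2 O h3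
      h4 K hK
    exact ⟨hD, efratTwo F K hD⟩

end Pool.Agent.Results.MP_600e55_nt.NormIndexSymbols
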